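import Pool.Agent.Y120.J.Defs
import Pool.Agent.Y119.ML.Ev

/-!
# The modular invariant on the imaginary axis and the solution of the hypergeometric equation
-/

set_option autoImplicit false

open PowerSeries Filter Topology

namespace Pool.Agent.Y665.J

open Pool.Agent.Y120.J Pool.Agent.Y113
open Pool.Agent.Y119.ML (S S_zero hasDerivAt_S Cv_of)
open Pool.Agent.TH21.MS (g0 g1 g2 G0 xx)

/-- a function with derivative zero on a half line is equal to its limit -/
lemma eq_of_deriv_zero {W : ℝ → ℝ} {Y c : ℝ} (h : ∀ y, Y < y → HasDerivAt W 0 y) (hc : Tendsto W atTop (𝓝 c))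
    {y : ℝ} (hy : Y < y) : W y = c := by
  have h1 : ∀ z, y < z → W z = W y := by
    intro z hz
    obtain ⟨t, ht, h2⟩ := exists_hasDerivAt_eq_slope W (fun _ => 0) hz
      (fun t ht => (h t (lt_of_lt_of_le hy ht.1)).continuousAt.continuousWithinAt)
      (fun t ht => h t (hy.trans ht.1))
    rw [eq_comm, div_eq_zero_iff] at h2
    rcases h2 with h2 | h2 <;> linarith
  have h3 : Tendsto W atTop (𝓝 (W y)) := by
    refine Tendsto.congr' ?_ tendsto_const_nhds
    filter_upwards [eventually_gt_atTop y] with z hz using (h1 z hz).symm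
  exact tendsto_nhds_unique h3 hc

lemma g0_atTop : Tendsto g0 atTop atTop := by
  obtain ⟨y0, hy0, h⟩ := Pool.Agent.TH21.MS.g0_log
  have h1 : Tendsto (fun y : ℝ => Real.exp (2 * Real.pi * y - 1)) atTop atTop := by
    refine Real.tendsto_exp_atTop.comp ?_
    refine tendsto_atTop_add_const_right _ _ ?_
    exact Tendsto.const_mul_atTop (by positivity) tendsto_id
  refine tendsto_atTop_mono' atTop ?_ h1
  filter_upwards [eventually_ge_atTop y0] with y hy
  obtain ⟨h2, h3⟩ := h y hy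
  rw [← Real.le_log_iff_exp_le h2]
  have := (abs_le.1 h3).1
  linarith

lemma G0_tend : Tendsto (fun y => G0 (xx y)) atTop (𝓝 1) := by
  have hc : ContinuousAt G0 0 := (Pool.Agent.TH21.MS.G0_an 0 ⟨le_rfl, one_pos⟩).continuousAt
  have := hc.tendsto.comp Pool.Agent.TH21.MS.xx_tendsto
  rwa [Pool.Agent.TH21.MS.G0_zero] at this

lemma G1_tend : Tendsto (fun y => Pool.Agent.TH21.MS.G1 (xx y)) atTop (𝓝 (2 * Real.pi)) := by
  have hc : ContinuousAt Pool.Agent.TH21.MS.G1 0 := (Pool.Agent.TH21.MS.G1_an 0 ⟨le_rfl, one_pos⟩).continuousAt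
  have := hc.tendsto.comp Pool.Agent.TH21.MS.xx_tendsto
  rwa [Pool.Agent.TH21.MS.G1_zero] at this

lemma G2_tend : Tendsto (fun y => Pool.Agent.TH21.MS.G2 (xx y)) atTop (𝓝 (2 * Real.pi * (2 * Real.pi))) := by
  have hc : ContinuousAt Pool.Agent.TH21.MS.G2 0 := (Pool.Agent.TH21.MS.G2_an 0 ⟨le_rfl, one_pos⟩).continuousAt
  have := hc.tendsto.comp Pool.Agent.TH21.MS.xx_tendsto
  have h0 : Pool.Agent.TH21.MS.G2 0 = 2 * Real.pi * (2 * Real.pi) := by
    unfold Pool.Agent.TH21.MS.G2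
    rw [Pool.Agent.TH21.MS.G1_zero]
    ring
  rwa [h0] at this

lemma q1_tend : Tendsto (fun y => g1 y / g0 y) atTop (𝓝 (2 * Real.pi)) := by
  have h1 := G1_tend.div G0_tend one_ne_zero
  rw [div_one] at h1
  refine h1.congr fun y => ?_
  have := (Pool.Agent.TH21.MS.xx_pos y).ne'
  unfold g1 g0
  simp only [Pi.div_apply]
  rw [div_div_div_cancel_right₀ this]

lemma q2_tend : Tendsto (fun y => g2 y / g1 y) atTop (𝓝 (2 * Real.pi)) := by
  have hpi := Real.pi_pos
  have h1 := G2_tend.div G1_tend (by positivity)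
  rw [mul_div_assoc, div_self (by positivity), mul_one] at h1
  refine h1.congr fun y => ?_
  have := (Pool.Agent.TH21.MS.xx_pos y).ne'
  unfold g2 g1
  simp only [Pi.div_apply]
  rw [div_div_div_cancel_right₀ this]

lemma sg_tend : Tendsto sg atTop (𝓝 0) := by
  have h1 := (q2_tend.sub q1_tend).const_mul (-(1 / (4 * Real.pi)))
  rw [sub_self, mul_zero] at h1
  exact h1

/-- the ratio `r = - D j / j` -/
noncomputable def rr (y : ℝ) : ℝ := g1 y / (2 * Real.pi * g0 y)

lemma rr_tend : Tendsto rr atTop (𝓝 1) := by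
  have hpi := Real.pi_pos
  have h1 := q1_tend.div_const (2 * Real.pi)
  rw [div_self (by positivity)] at h1
  refine h1.congr fun y => ?_
  unfold rr
  rw [div_div, mul_comm (g0 y)]

/-- the values of a power series with coefficients of exponential growth along `1 / j` -/
lemma ev_facts {f : ℚ⟦X⟧} (hf : SDc f) : ∃ T : ℝ, 1 ≤ T ∧ (∀ t, T ≤ t → Cv t f) ∧
    ∀ y, 0 < y → T ≤ g0 y → HasDerivAt (fun y => ev (g0 y) f) (-(g1 y / g0 y) * ev (g0 y) (X * d⁄dX ℚ f)) y := by
  obtain ⟨n, hn⟩ := hf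
  have hn' := hn.deriv
  have h1 := hn.one_le
  have h2 := hn'.one_le
  refine ⟨2 * (2 * (2 ^ n) ^ 2), by linarith, fun t ht => ?_, fun y hy ht => ?_⟩
  · have ht0 : 0 < t := by linarith
    have := Cv_of hn (x := 1 / t) (by positivity) (by
      rw [one_div_mul_eq_div, div_lt_one ht0]
      nlinarith)
    rwa [one_div_one_div] at this
  · have ht0 : 0 < g0 y := by linarith
    have hx : |1 / g0 y| * 2 ^ n < 1 := by
      rw [abs_of_pos (by positivity), one_div_mul_eq_div, div_lt_one ht0]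
      nlinarith
    have h3 := hasDerivAt_S hn hx
    have h4 : HasDerivAt (fun y => 1 / g0 y) (-(g1 y) / g0 y ^ 2) y := by
      have := (Pool.Agent.TH21.MS.g0_deriv y hy).fun_inv ht0.ne'
      simpa only [one_div] using this
    have h5 : HasDerivAt (fun y => S f (1 / g0 y)) (S (d⁄dX ℚ f) (1 / g0 y) * (-(g1 y) / g0 y ^ 2)) y :=
      HasDerivAt.comp (h₂ := S f) (h := fun y => 1 / g0 y) y h3 h4
    have hcd : Cv (g0 y) (d⁄dX ℚ f) := by
      have := Cv_of hn' (x := 1 / g0 y) (by positivity) (by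
        rw [one_div_mul_eq_div, div_lt_one ht0]
        linarith)
      rwa [one_div_one_div] at this
    have hX : Cv (g0 y) (X : ℚ⟦X⟧) := by
      have := Cv.coe (t := g0 y) (Polynomial.X : Polynomial ℚ)
      rwa [Polynomial.coe_X] at this
    have hX' : ev (g0 y) (X : ℚ⟦X⟧) = 1 / g0 y := by
      have := ev_coe (t := g0 y) (Polynomial.X : Polynomial ℚ)
      rwa [Polynomial.coe_X, Polynomial.aeval_X] at this
    refine h5.congr_deriv ?_
    rw [hX.ev_mul ht0 hcd, hX']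
    show ev (g0 y) (d⁄dX ℚ f) * _ = _
    field_simp

lemma ev_tend {f : ℚ⟦X⟧} (hf : SDc f) : Tendsto (fun y => ev (g0 y) f) atTop (𝓝 ((constantCoeff f : ℚ) : ℝ)) := by
  obtain ⟨n, hn⟩ := hf
  have h1 := (hasDerivAt_S hn (x := 0) (by simp)).continuousAt.tendsto
  rw [S_zero] at h1
  have h2 : Tendsto (fun y => 1 / g0 y) atTop (𝓝 0) := by
    have h : Tendsto (fun y => (g0 y)⁻¹) atTop (𝓝 0) := tendsto_inv_atTop_zero.comp g0_atTop
    simpa only [one_div] using h
  exact h1.comp h2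

lemma ev_ps (t : ℝ) (P : Polynomial ℤ) : ev t (ps P) = Polynomial.aeval (1 / t) P := by
  unfold ps
  rw [ev_coe]
  rw [Polynomial.aeval_def, Polynomial.eval₂_map, Polynomial.aeval_def]
  congr 1

lemma cv_ps (t : ℝ) (P : Polynomial ℤ) : Cv t (ps P) := Cv.coe _

lemma rr_deriv {y : ℝ} (hy : 0 < y) (h0 : 0 < g0 y) (h1 : 0 < g1 y) : HasDerivAt rr (-(4 * Real.pi) * sg y * rr y) y := by
  have hpi := Real.pi_pos
  have e0 := Pool.Agent.TH21.MS.g0_deriv y hy
  have e1 := Pool.Agent.TH21.MS.g1_deriv y hy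
  have e2 : HasDerivAt rr ((g2 y * (2 * Real.pi * g0 y) - g1 y * (2 * Real.pi * g1 y)) / (2 * Real.pi * g0 y) ^ 2) y :=
    e1.fun_div (e0.const_mul (2 * Real.pi)) (by positivity)
  refine e2.congr_deriv ?_
  unfold sg rr
  field_simp

theorem t_an (hric : T_RIC) (hode : T_ODE) (hsd : T_SD) : T_AN := by
  have hpi := Real.pi_pos
  obtain ⟨Y0, hY0, hR⟩ := hric
  obtain ⟨hFs, hGs⟩ := hsd
  have hF1 : SDc F1 := SDc.X.mul hFs.deriv
  have hG1 : SDc G1 := (SDc.X.mul hGs.deriv).add hFs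
  have hXG : SDc (X * d⁄dX ℚ GG) := SDc.X.mul hGs.deriv
  have hXF1 : SDc (X * d⁄dX ℚ F1) := SDc.X.mul hF1.deriv
  have hXG1 : SDc (X * d⁄dX ℚ G1) := SDc.X.mul hG1.deriv
  obtain ⟨T1', h11, c1, d1⟩ := ev_facts hFs
  obtain ⟨T2, h21, c2, d2⟩ := ev_facts hGs
  obtain ⟨T3, h31, c3, d3⟩ := ev_facts hF1
  obtain ⟨T4, h41, c4, d4⟩ := ev_facts hG1
  obtain ⟨T5, h51, c5, _⟩ := ev_facts hXG
  obtain ⟨T6, h61, c6, _⟩ := ev_facts hXF1
  obtain ⟨T7, h71, c7, _⟩ := ev_facts hXG1
  obtain ⟨Y1, hY1⟩ := ((g0_atTop.eventually_ge_atTop (T1' + T2 + T3 + T4 + T5 + T6 + T7))).exists_forall_of_atTop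
  have key : ∀ y, max Y0 Y1 < y → 0 < y ∧ 1728 < g0 y ∧ 0 < g1 y ∧
      (HasDerivAt sg (-(2 * Real.pi) * (sg y ^ 2 + rr y ^ 2 *
        ((1 / g0 y) * (82944 * (1 / g0 y) - 372) / (1 - 1728 * (1 / g0 y)) ^ 2))) y) ∧
      T1' ≤ g0 y ∧ T2 ≤ g0 y ∧ T3 ≤ g0 y ∧ T4 ≤ g0 y ∧ T5 ≤ g0 y ∧ T6 ≤ g0 y ∧ T7 ≤ g0 y := by
    intro y hy
    obtain ⟨h1, h2⟩ := max_lt_iff.1 hy
    have h3 := hY1 y h2.le
    obtain ⟨h4, h5, h6⟩ := hR y h1.le
    refine ⟨by linarith, h4, h5, h6, ?_, ?_, ?_, ?_, ?_, ?_, ?_⟩ <;> linarith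
  -- the functions
  set f : ℝ → ℝ := fun y => ev (g0 y) FF with hf
  set g : ℝ → ℝ := fun y => ev (g0 y) GG with hg
  set f1 : ℝ → ℝ := fun y => ev (g0 y) F1 with hf1
  set k1 : ℝ → ℝ := fun y => ev (g0 y) G1 with hk1
  set qq : ℝ → ℝ := fun y => (1 / g0 y) * (82944 * (1 / g0 y) - 372) / (1 - 1728 * (1 / g0 y)) ^ 2 with hqq
  set ρ : ℝ → ℝ := fun y => √(rr y) with hρ
  set κ : ℝ → ℝ := fun y => sg y / ρ y with hκ
  have hrr : ∀ y, max Y0 Y1 < y → 0 < rr y := by
    intro y hy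
    obtain ⟨h1, h2, h3, _⟩ := key y hy
    exact div_pos h3 (by positivity)
  have hρ0 : ∀ y, max Y0 Y1 < y → 0 < ρ y := fun y hy => Real.sqrt_pos.2 (hrr y hy)
  have hρ2 : ∀ y, max Y0 Y1 < y → rr y = ρ y ^ 2 := fun y hy => (Real.sq_sqrt (hrr y hy).le).symm
  have hquo : ∀ y, max Y0 Y1 < y → g1 y / g0 y = 2 * Real.pi * rr y := by
    intro y hy
    obtain ⟨h1, h2, h3, _⟩ := key y hy
    have h4 : 0 < g0 y := by linarith
    unfold rr
    field_simp
  have df : ∀ y, max Y0 Y1 < y → HasDerivAt f (-(2 * Real.pi * rr y) * f1 y) y := by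
    intro y hy
    obtain ⟨h1, h2, h3, h4, h5, h6, h7, h8, h9, h10, h11⟩ := key y hy
    refine (d1 y h1 h5).congr_deriv ?_
    rw [hquo y hy]
    rfl
  have dg : ∀ y, max Y0 Y1 < y → HasDerivAt g (-(2 * Real.pi * rr y) * (k1 y - f y)) y := by
    intro y hy
    obtain ⟨h1, h2, h3, h4, h5, h6, h7, h8, h9, h10, h11⟩ := key y hy
    refine (d2 y h1 h6).congr_deriv ?_
    rw [hquo y hy]
    have e1 : k1 y = ev (g0 y) (X * d⁄dX ℚ GG) + f y := (c5 _ h9).ev_add (by linarith) (c1 _ h5)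
    rw [e1]
    ring
  have hT : ∀ y, max Y0 Y1 < y → 0 < 1 - 1728 * (1 / g0 y) := by
    intro y hy
    obtain ⟨h1, h2, _⟩ := key y hy
    have h4 : 0 < g0 y := by linarith
    rw [sub_pos, mul_one_div, div_lt_one h4]
    exact h2
  have hpT : ∀ t : ℝ, ev t (ps T1) = (1 - 1728 * (1 / t)) ^ 2 := by
    intro t
    rw [ev_ps, T1, map_pow, map_sub, map_mul, Polynomial.aeval_X, map_one, map_ofNat]
  have hpQ : ∀ t : ℝ, ev t (ps Q1) = (1 / t) * (82944 * (1 / t) - 372) := by
    intro t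
    rw [ev_ps, Q1, map_mul, map_sub, map_mul, Polynomial.aeval_X, map_ofNat, map_ofNat]
  have df1 : ∀ y, max Y0 Y1 < y → HasDerivAt f1 (-(2 * Real.pi * rr y) * (qq y * f y)) y := by
    intro y hy
    obtain ⟨h1, h2, h3, h4, h5, h6, h7, h8, h9, h10, h11⟩ := key y hy
    have h0 : 0 < g0 y := by linarith
    refine (d3 y h1 h7).congr_deriv ?_
    rw [hquo y hy]
    have e1 := congrArg (ev (g0 y)) hode.1
    rw [(cv_ps _ _).ev_mul h0 (c6 _ h10), (cv_ps _ _).ev_mul h0 (c1 _ h5), hpT, hpQ] at e1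
    have e2 : ev (g0 y) (X * d⁄dX ℚ F1) = qq y * f y := by
      have := hT y hy
      simp only [hqq, hf]
      rw [div_mul_eq_mul_div, eq_div_iff (by positivity)]
      linarith
    rw [e2]
  have dk1 : ∀ y, max Y0 Y1 < y → HasDerivAt k1 (-(2 * Real.pi * rr y) * (qq y * g y - f1 y)) y := by
    intro y hy
    obtain ⟨h1, h2, h3, h4, h5, h6, h7, h8, h9, h10, h11⟩ := key y hy
    have h0 : 0 < g0 y := by linarith
    refine (d4 y h1 h8).congr_deriv ?_
    rw [hquo y hy]
    have e1 := congrArg (ev (g0 y)) hode.2.1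
    rw [(cv_ps _ _).ev_mul h0 ((c7 _ h11).add h0 (c3 _ h7)), (cv_ps _ _).ev_mul h0 (c2 _ h6), hpT, hpQ,
      (c7 _ h11).ev_add h0 (c3 _ h7)] at e1
    have e2 : ev (g0 y) (X * d⁄dX ℚ G1) = qq y * g y - f1 y := by
      have := hT y hy
      have e3 : ev (g0 y) (X * d⁄dX ℚ G1) + ev (g0 y) F1 = qq y * g y := by
        simp only [hqq, hg]
        rw [div_mul_eq_mul_div, eq_div_iff (by positivity)]
        linarith
      simp only [hf1]
      linarith
    rw [e2]
  have hW : ∀ y, max Y0 Y1 < y → f y * k1 y - f1 y * g y = 1 := by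
    intro y hy
    obtain ⟨h1, h2, h3, h4, h5, h6, h7, h8, h9, h10, h11⟩ := key y hy
    have h0 : 0 < g0 y := by linarith
    have e1 := congrArg (ev (g0 y)) hode.2.2
    have e2 : FF * G1 = 1 + F1 * GG := by
      linear_combination hode.2.2
    have e3 := congrArg (ev (g0 y)) e2
    rw [(c1 _ h5).ev_mul h0 (c4 _ h8), Cv.one.ev_add h0 ((c3 _ h7).mul h0 (c2 _ h6)),
      (c3 _ h7).ev_mul h0 (c2 _ h6), ev_one] at e3
    simp only [hf, hk1, hf1, hg]
    linarith
  have dρ : ∀ y, max Y0 Y1 < y → HasDerivAt ρ (-(2 * Real.pi) * sg y * ρ y) y := by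
    intro y hy
    obtain ⟨h1, h2, h3, _⟩ := key y hy
    have := (rr_deriv h1 (by linarith) h3).sqrt (hrr y hy).ne'
    refine this.congr_deriv ?_
    have h5 := hρ0 y hy
    have h6 := hρ2 y hy
    show _ / (2 * ρ y) = _
    rw [div_eq_iff (by positivity), h6]
    ring
  have dκ : ∀ y, max Y0 Y1 < y → HasDerivAt κ (-(2 * Real.pi) * ρ y ^ 3 * qq y) y := by
    intro y hy
    obtain ⟨h1, h2, h3, h4, _⟩ := key y hy
    have h5 := hρ0 y hy
    have h6 := hρ2 y hy
    have := h4.fun_div (dρ y hy) h5.ne'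
    refine this.congr_deriv ?_
    rw [h6]
    show (-(2 * Real.pi) * (sg y ^ 2 + (ρ y ^ 2) ^ 2 * qq y) * ρ y - sg y * (-(2 * Real.pi) * sg y * ρ y)) / ρ y ^ 2 = _
    rw [div_eq_iff (by positivity)]
    ring
  have dL : ∀ y, max Y0 Y1 < y → HasDerivAt (fun y => -Real.log (g0 y)) (-(2 * Real.pi * rr y)) y := by
    intro y hy
    obtain ⟨h1, h2, h3, h4, _⟩ := key y hy
    have := ((Pool.Agent.TH21.MS.g0_deriv y h1).log (by linarith)).fun_neg
    refine this.congr_deriv ?_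
    rw [hquo y hy]
  have hsρ : ∀ y, max Y0 Y1 < y → sg y = κ y * ρ y := by
    intro y hy
    have := hρ0 y hy
    simp only [hκ]
    field_simp
  -- limits
  have cFF : constantCoeff FF = 1 := by
    simp [FF, fu, fa, ← coeff_zero_eq_constantCoeff_apply, coeff_mul]
  have cGG : constantCoeff GG = 0 := by
    simp [GG, fu, fa, fb, ← coeff_zero_eq_constantCoeff_apply, coeff_mul]
  have cF1 : constantCoeff F1 = 0 := by simp [F1]
  have cG1 : constantCoeff G1 = 1 := by simp [G1, cFF]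
  have tf : Tendsto f atTop (𝓝 1) := by simpa [cFF] using ev_tend hFs
  have tg : Tendsto g atTop (𝓝 0) := by simpa [cGG] using ev_tend hGs
  have tf1 : Tendsto f1 atTop (𝓝 0) := by simpa [cF1] using ev_tend hF1
  have tk1 : Tendsto k1 atTop (𝓝 1) := by simpa [cG1] using ev_tend hG1
  have tρ : Tendsto ρ atTop (𝓝 1) := by
    have := (Real.continuous_sqrt.tendsto 1).comp rr_tend
    rw [Real.sqrt_one] at this
    exact this
  have tκ : Tendsto κ atTop (𝓝 0) := by
    have := sg_tend.div tρ one_ne_zero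
    rw [zero_div] at this
    exact this
  -- the first identity
  have I1 : ∀ y, max Y0 Y1 < y → ρ y * f1 y - κ y * f y = 0 := by
    intro y hy
    refine eq_of_deriv_zero (W := fun y => ρ y * f1 y - κ y * f y) (fun z hz => ?_) ?_ hy
    · have := ((dρ z hz).fun_mul (df1 z hz)).fun_sub ((dκ z hz).fun_mul (df z hz))
      refine this.congr_deriv ?_
      rw [hρ2 z hz, hsρ z hz]
      ring
    · simpa using (tρ.mul tf1).sub (tκ.mul tf)
  have I2 : ∀ y, max Y0 Y1 < y → ρ y * k1 y - κ y * g y = 1 := by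
    intro y hy
    have h1 : (fun y => ρ y * (f1 y * -Real.log (g0 y) + k1 y) - κ y * (f y * -Real.log (g0 y) + g y)) =ᶠ[atTop]
        fun y => ρ y * k1 y - κ y * g y := by
      filter_upwards [eventually_gt_atTop (max Y0 Y1)] with z hz
      linear_combination (-Real.log (g0 z)) * I1 z hz
    have h2 : Tendsto (fun y => ρ y * k1 y - κ y * g y) atTop (𝓝 1) := by
      simpa using (tρ.mul tk1).sub (tκ.mul tg)
    have h3 := eq_of_deriv_zero
      (W := fun y => ρ y * (f1 y * -Real.log (g0 y) + k1 y) - κ y * (f y * -Real.log (g0 y) + g y)) (Y := max Y0 Y1)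
      (fun z hz => by
        have := ((dρ z hz).fun_mul (((df1 z hz).fun_mul (dL z hz)).fun_add (dk1 z hz))).fun_sub
          ((dκ z hz).fun_mul (((df z hz).fun_mul (dL z hz)).fun_add (dg z hz)))
        refine this.congr_deriv ?_
        rw [hρ2 z hz, hsρ z hz]
        ring) (h2.congr' h1.symm) hy
    linear_combination h3 - (-Real.log (g0 y)) * I1 y hy
  have I3 : ∀ y, max Y0 Y1 < y → ρ y = f y := by
    intro y hy
    linear_combination (f y) * I2 y hy - g y * I1 y hy - ρ y * hW y hy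
  have I4 : ∀ y, max Y0 Y1 < y → κ y = f1 y := by
    intro y hy
    have h1 := I1 y hy
    have h2 := hρ0 y hy
    rw [I3 y hy] at h1 h2
    have h3 : f y * (κ y - f1 y) = 0 := by linarith
    rcases mul_eq_zero.1 h3 with h4 | h4
    · exact absurd h4 h2.ne'
    · linarith
  have I5 : ∀ y, max Y0 Y1 < y → -Real.log (g0 y) + g y / f y + 2 * Real.pi * y = 0 := by
    intro y hy
    refine eq_of_deriv_zero (W := fun y => -Real.log (g0 y) + g y / f y + 2 * Real.pi * y) (fun z hz => ?_) ?_ hy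
    · have hfz : 0 < f z := by rw [← I3 z hz]; exact hρ0 z hz
      have := ((dL z hz).fun_add ((dg z hz).fun_div (df z hz) hfz.ne')).fun_add
        ((hasDerivAt_id' z).const_mul (2 * Real.pi))
      refine this.congr_deriv ?_
      rw [hρ2 z hz, I3 z hz]
      have h4 := hW z hz
      field_simp
      linear_combination (-(2 * Real.pi)) * h4
    · have h1 : Tendsto (fun y => -Real.log (G0 (xx y))) atTop (𝓝 0) := by
        have := ((Real.continuousAt_log one_ne_zero).tendsto.comp G0_tend).neg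
        rw [Real.log_one, neg_zero] at this
        exact this
      have h2 : Tendsto (fun y => g y / f y) atTop (𝓝 0) := by
        have := tg.div tf one_ne_zero
        rw [zero_div] at this
        exact this
      have h3 := h1.add h2
      rw [add_zero] at h3
      refine h3.congr' ?_
      filter_upwards [G0_tend.eventually_const_lt (show (0 : ℝ) < 1 by norm_num)] with y hy
      have hlog : Real.log (g0 y) = Real.log (G0 (xx y)) + 2 * Real.pi * y := by
        unfold g0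
        rw [Real.log_div (ne_of_gt hy) (Pool.Agent.TH21.MS.xx_pos y).ne']
        unfold Pool.Agent.TH21.MS.xx
        rw [Real.log_exp]
        ring
      rw [hlog]
      ring
  refine ⟨max Y0 Y1 + 1, by linarith [le_max_left Y0 Y1], fun y hy => ?_⟩
  have hy' : max Y0 Y1 < y := by linarith
  obtain ⟨h1, h2, h3, h4, _⟩ := key y hy'
  have h0 : 0 < g0 y := by linarith
  have hfy : 0 < f y := by rw [← I3 y hy']; exact hρ0 y hy'
  have hg1 : g1 y = 2 * Real.pi * g0 y * f y ^ 2 := by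
    have e1 := hρ2 y hy'
    rw [I3 y hy'] at e1
    rw [← e1]
    unfold rr
    field_simp
  refine ⟨h0, hfy, hg1, ?_, ?_⟩
  · have e1 := I5 y hy'
    show -Real.log (g0 y) * f y + g y = -(2 * Real.pi * y) * f y
    have e2 : g y / f y * f y = g y := div_mul_cancel₀ _ hfy.ne'
    linear_combination (f y) * e1 - e2
  · show g2 y = 4 * Real.pi ^ 2 * g0 y * (f y ^ 4 - 2 * f y ^ 3 * f1 y)
    have e1 := hsρ y hy'
    rw [I3 y hy', I4 y hy'] at e1
    unfold sg at e1
    have e2 : g2 y / g1 y = g1 y / g0 y - 4 * Real.pi * (f1 y * f y) := by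
      rw [← e1]
      field_simp
      ring
    rw [div_eq_iff h3.ne'] at e2
    rw [e2, hg1]
    field_simp
    ring

end Pool.Agent.Y665.J
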